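import Mathlib

set_option autoImplicit false

/-!
# `Σ¹₃(B)` sets of reals and `Σ₁(ω₁)`-definability over `⟨H(ω₂), ∈, B, NS_{ω₁}⟩`

We prove (in ZFC) that the statement asked about, even restricted to countable sets `B`,
implies the continuum hypothesis.
-/

namespace Pool.Agent.Results.MP_ebf58a_lc.ClaimImpliesCH

open Cardinal Ordinal

universe u

/-! ### Universally Baire sets, and `Σ¹₃(B)` sets of reals -/

/-- `B ⊆ ω^ω` is universally Baire: for every compact Hausdorff space `X` and every continuous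
`f : X → ω^ω`, the preimage `f⁻¹[B]` has the property of Baire in `X` (it differs from an open
set by a meagre set). -/
def UniversallyBaire (B : Set (ℕ → ℕ)) : Prop :=
  ∀ (X : Type u) [TopologicalSpace X] [CompactSpace X] [T2Space X] (f : X → ℕ → ℕ),
    Continuous f → ∃ U : Set X, IsOpen U ∧ IsMeagre (symmDiff (f ⁻¹' B) U)

/-- Number terms: number variables `n_i`, zero, successor, sum, product, and the value
`y_i (t)` of the real variable `y_i` at a number term `t`. -/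
inductive NumTerm : Type
  | var (i : ℕ) : NumTerm
  | zero : NumTerm
  | succ (t : NumTerm) : NumTerm
  | add (s t : NumTerm) : NumTerm
  | mul (s t : NumTerm) : NumTerm
  | app (i : ℕ) (t : NumTerm) : NumTerm

/-- Formulas over `(ω, ω^ω, B)` with number quantifiers only: equations of number terms,
`y_i ∈ B`, negation, conjunction, and `∀ n_i`. -/
inductive ArithFormula : Type
  | eq (s t : NumTerm) : ArithFormula
  | inB (i : ℕ) : ArithFormula
  | not (φ : ArithFormula) : ArithFormula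
  | and (φ ψ : ArithFormula) : ArithFormula
  | all (i : ℕ) (φ : ArithFormula) : ArithFormula

/-- The value of a number term, the real variables being interpreted by `y` and the number
variables by `n`. -/
def NumTerm.val (y : ℕ → ℕ → ℕ) (n : ℕ → ℕ) : NumTerm → ℕ
  | .var i => n i
  | .zero => 0
  | .succ t => t.val y n + 1
  | .add s t => s.val y n + t.val y n
  | .mul s t => s.val y n * t.val y n
  | .app i t => y i (t.val y n)

/-- Satisfaction in `(ω, ω^ω, B)`. -/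
def ArithFormula.Sat (B : Set (ℕ → ℕ)) (y : ℕ → ℕ → ℕ) : (ℕ → ℕ) → ArithFormula → Prop
  | n, .eq s t => s.val y n = t.val y n
  | _, .inB i => y i ∈ B
  | n, .not φ => ¬ φ.Sat B y n
  | n, .and φ ψ => φ.Sat B y n ∧ ψ.Sat B y n
  | n, .all i φ => ∀ m : ℕ, φ.Sat B y (Function.update n i m)

/-- The interpretation of the real variables `y_0, y_1, y_2, y_3` by `x, y₁, y₂, y₃`. -/
def reals (x y₁ y₂ y₃ : ℕ → ℕ) : ℕ → ℕ → ℕ
  | 0 => x
  | 1 => y₁
  | 2 => y₂
  | 3 => y₃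
  | _ => fun _ => 0

/-- `A` is `Σ¹₃(B)` (lightface): it is defined over `(ω, ω^ω, B)` by a formula
`∃ y₁ ∀ y₂ ∃ y₃ ψ(x, y₁, y₂, y₃)` where `ψ` has only number quantifiers. -/
def IsSigma13 (B A : Set (ℕ → ℕ)) : Prop :=
  ∃ ψ : ArithFormula, A = {x | ∃ y₁ : ℕ → ℕ, ∀ y₂ : ℕ → ℕ, ∃ y₃ : ℕ → ℕ,
    ψ.Sat B (reals x y₁ y₂ y₃) (fun _ => 0)}

/-! ### The structure `M_B = ⟨H(ω₂), ∈, B, NS_{ω₁}⟩` -/

/-- `H(ω₂)`: the sets whose transitive closure has cardinality at most `ℵ₁`, i.e. which are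
included in a transitive set of cardinality at most `ℵ₁`. -/
def H2 : Type (u + 1) :=
  {x : ZFSet.{u} // ∃ t : ZFSet.{u}, t.IsTransitive ∧ x ⊆ t ∧ t.card ≤ ℵ₁}

/-- The real `f : ω → ω` as a set of ordered pairs of von Neumann natural numbers. -/
noncomputable def realSet (f : ℕ → ℕ) : ZFSet.{u} :=
  ZFSet.range fun n : ℕ => ZFSet.pair (n : Ordinal.{u}).toZFSet (f n : Ordinal.{u}).toZFSet

/-- `x` is in `NS_{ω₁}`: it is a nonstationary subset of `ω₁`. -/
def InNS (x : ZFSet.{u}) : Prop :=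
  x ⊆ (ω_ 1).toZFSet ∧
    ¬ IsStationary {a : Set.Iio (ω_ 1 : Ordinal.{u}) | (a : Ordinal.{u}).toZFSet ∈ x}

/-- `Δ₀` formulas in the language with `∈`, a unary predicate for `B` and a unary predicate for
`NS_{ω₁}`: atomic formulas, negation, conjunction, bounded quantification `∀ v_i ∈ v_j`. -/
inductive Delta0 : Type
  | mem (i j : ℕ) : Delta0
  | eq (i j : ℕ) : Delta0
  | inB (i : ℕ) : Delta0
  | inNS (i : ℕ) : Delta0
  | not (φ : Delta0) : Delta0
  | and (φ ψ : Delta0) : Delta0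
  | ball (i j : ℕ) (φ : Delta0) : Delta0
  deriving Countable

/-- `Σ₁` formulas: a block of existential quantifiers followed by a `Δ₀` formula. -/
inductive Sigma1 : Type
  | base (φ : Delta0) : Sigma1
  | ex (i : ℕ) (φ : Sigma1) : Sigma1
  deriving Countable

/-- Satisfaction of `Δ₀` formulas in `M_B`. -/
def Delta0.Sat (B : Set (ℕ → ℕ)) : (ℕ → H2.{u}) → Delta0 → Prop
  | v, .mem i j => (v i).1 ∈ (v j).1
  | v, .eq i j => v i = v j
  | v, .inB i => ∃ f ∈ B, (v i).1 = realSet f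
  | v, .inNS i => InNS (v i).1
  | v, .not φ => ¬ φ.Sat B v
  | v, .and φ ψ => φ.Sat B v ∧ ψ.Sat B v
  | v, .ball i j φ => ∀ a : H2.{u}, a.1 ∈ (v j).1 → φ.Sat B (Function.update v i a)

/-- Satisfaction of `Σ₁` formulas in `M_B`. -/
def Sigma1.Sat (B : Set (ℕ → ℕ)) : (ℕ → H2.{u}) → Sigma1 → Prop
  | v, .base φ => φ.Sat B v
  | v, .ex i φ => ∃ a : H2.{u}, φ.Sat B (Function.update v i a)

theorem omega1_mem_H2 : ∃ t : ZFSet.{u}, t.IsTransitive ∧ (ω_ 1 : Ordinal.{u}).toZFSet ⊆ t ∧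
    t.card ≤ ℵ₁ :=
  ⟨(ω_ 1 : Ordinal.{u}).toZFSet, (ZFSet.isOrdinal_toZFSet _).isTransitive, fun _ h => h, by simp⟩

/-- `ω₁` as an element of `H(ω₂)`. -/
noncomputable def omega1 : H2.{u} := ⟨(ω_ 1).toZFSet, omega1_mem_H2⟩

/-- The set of reals `A` is `Σ₁(ω₁)`-definable over `M_B`: for some `Σ₁` formula `φ(v₀, v₁)`,
the elements `x` of `H(ω₂)` with `M_B ⊨ φ(x, ω₁)` are exactly the elements of `A`. (All variables
other than `v₀` are interpreted by `ω₁`, the only parameter allowed.) -/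
def IsSigma1Omega1 (B A : Set (ℕ → ℕ)) : Prop :=
  ∃ φ : Sigma1, ∀ x : H2.{u},
    φ.Sat B (fun i => if i = 0 then x else omega1) ↔ ∃ f ∈ A, x.1 = realSet f

/-! ### Basic facts -/

theorem ordNat_injective {m n : ℕ} (h : (m : Ordinal.{u}).toZFSet = (n : Ordinal.{u}).toZFSet) :
    m = n := by
  have := Ordinal.toZFSet_injective h
  exact_mod_cast this

theorem realSet_injective : Function.Injective (realSet.{u}) := by
  intro f g h
  funext n
  have h1 : ZFSet.pair (n : Ordinal.{u}).toZFSet (f n : Ordinal.{u}).toZFSet ∈ realSet.{u} f := by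
    unfold realSet
    rw [ZFSet.mem_range]
    exact ⟨n, rfl⟩
  rw [h] at h1
  unfold realSet at h1
  rw [ZFSet.mem_range] at h1
  obtain ⟨m, hm⟩ := h1
  rw [ZFSet.pair_inj] at hm
  have h2 := ordNat_injective hm.1
  subst h2
  exact (ordNat_injective hm.2).symm

/-! ### Reals are in `H(ω₂)` -/

/-- A countable transitive set containing all ordered pairs of natural numbers. -/
noncomputable def smallSet : ZFSet.{u} :=
  ZFSet.range fun p : ℕ ⊕ (ℕ × ℕ) ⊕ (ℕ × ℕ) => match p with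
    | .inl n => (n : Ordinal.{u}).toZFSet
    | .inr (.inl (n, m)) => {(n : Ordinal.{u}).toZFSet, (m : Ordinal.{u}).toZFSet}
    | .inr (.inr (n, m)) => ZFSet.pair (n : Ordinal.{u}).toZFSet (m : Ordinal.{u}).toZFSet

theorem nat_mem_smallSet (n : ℕ) : (n : Ordinal.{u}).toZFSet ∈ smallSet.{u} := by
  unfold smallSet
  rw [ZFSet.mem_range]
  exact ⟨.inl n, rfl⟩

theorem two_mem_smallSet (n m : ℕ) :
    ({(n : Ordinal.{u}).toZFSet, (m : Ordinal.{u}).toZFSet} : ZFSet) ∈ smallSet.{u} := by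
  unfold smallSet
  rw [ZFSet.mem_range]
  exact ⟨.inr (.inl (n, m)), rfl⟩

theorem smallSet_transitive : smallSet.{u}.IsTransitive := by
  intro y hy z hz
  have hy' := hy
  unfold smallSet at hy'
  rw [ZFSet.mem_range] at hy'
  obtain ⟨p, hp⟩ := hy'
  rcases p with n | ⟨n, m⟩ | ⟨n, m⟩
  · simp only at hp
    subst hp
    rw [Ordinal.mem_toZFSet_iff] at hz
    obtain ⟨a, ha, rfl⟩ := hz
    obtain ⟨k, rfl⟩ := Ordinal.lt_omega0.1 (ha.trans (Ordinal.natCast_lt_omega0 n))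
    exact nat_mem_smallSet k
  · simp only at hp
    subst hp
    rw [ZFSet.mem_pair] at hz
    rcases hz with rfl | rfl
    · exact nat_mem_smallSet n
    · exact nat_mem_smallSet m
  · simp only at hp
    subst hp
    unfold ZFSet.pair at hz
    rw [ZFSet.mem_pair] at hz
    rcases hz with rfl | rfl
    · have := two_mem_smallSet.{u} n n
      rwa [ZFSet.pair_eq_singleton] at this
    · exact two_mem_smallSet n m

theorem smallSet_card : smallSet.{u}.card ≤ ℵ₁ := by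
  have h := ZFSet.lift_card_range_le (f := fun p : ℕ ⊕ (ℕ × ℕ) ⊕ (ℕ × ℕ) => match p with
    | .inl n => (n : Ordinal.{u}).toZFSet
    | .inr (.inl (n, m)) => ({(n : Ordinal.{u}).toZFSet, (m : Ordinal.{u}).toZFSet} : ZFSet.{u})
    | .inr (.inr (n, m)) => ZFSet.pair (n : Ordinal.{u}).toZFSet (m : Ordinal.{u}).toZFSet)
  have h2 : lift.{u} #(ℕ ⊕ (ℕ × ℕ) ⊕ (ℕ × ℕ)) ≤ ℵ₀ := by
    rw [Cardinal.lift_le_aleph0]
    exact Cardinal.mk_le_aleph0
  have h3 : smallSet.{u}.card ≤ ℵ₀ := by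
    have := h.trans h2
    simpa [smallSet] using this
  exact h3.trans (Cardinal.aleph0_le_aleph 1)

theorem realSet_subset (f : ℕ → ℕ) : realSet.{u} f ⊆ smallSet.{u} := by
  intro x hx
  unfold realSet at hx
  rw [ZFSet.mem_range] at hx
  obtain ⟨n, rfl⟩ := hx
  unfold smallSet
  rw [ZFSet.mem_range]
  exact ⟨.inr (.inr (n, f n)), rfl⟩

/-- A real as an element of `H(ω₂)`. -/
noncomputable def realH (f : ℕ → ℕ) : H2.{u} :=
  ⟨realSet f, smallSet, smallSet_transitive, realSet_subset f, smallSet_card⟩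

/-! ### `Σ₁` facts have small support -/

theorem Delta0.sat_congr (B B' : Set (ℕ → ℕ)) (T : Set ZFSet.{u})
    (hT : ∀ x ∈ T, ∀ y ∈ x, y ∈ T) (hB : ∀ f, realSet f ∈ T → (f ∈ B ↔ f ∈ B'))
    (φ : Delta0) : ∀ v : ℕ → H2.{u}, (∀ i, (v i).1 ∈ T) → (φ.Sat B v ↔ φ.Sat B' v) := by
  induction φ with
  | mem i j => intro v _; exact Iff.rfl
  | eq i j => intro v _; exact Iff.rfl
  | inB i =>
    intro v hv
    constructor
    · rintro ⟨f, hf, he⟩
      exact ⟨f, (hB f (he ▸ hv i)).1 hf, he⟩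
    · rintro ⟨f, hf, he⟩
      exact ⟨f, (hB f (he ▸ hv i)).2 hf, he⟩
  | inNS i => intro v _; exact Iff.rfl
  | not φ ih =>
    intro v hv
    exact not_congr (ih v hv)
  | and φ ψ ih1 ih2 =>
    intro v hv
    exact and_congr (ih1 v hv) (ih2 v hv)
  | ball i j φ ih =>
    intro v hv
    apply forall_congr'
    intro a
    apply imp_congr_right
    intro ha
    apply ih
    intro k
    by_cases hk : k = i
    · subst hk
      rw [Function.update_self]
      exact hT _ (hv j) _ ha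
    · rw [Function.update_of_ne hk]
      exact hv k

theorem card_reals_in (T : ZFSet.{u}) (hT : T.card ≤ ℵ₁) :
    #{f : ℕ → ℕ | realSet f ∈ T} ≤ ℵ₁ := by
  have hinj : Function.Injective (fun f : {f : ℕ → ℕ | realSet.{u} f ∈ T} =>
      (⟨realSet f.1, f.2⟩ : {x : ZFSet.{u} | x ∈ T})) := by
    intro f g h
    apply Subtype.ext
    apply realSet_injective.{u}
    exact congrArg Subtype.val h
  have h1 := Cardinal.lift_mk_le_lift_mk_of_injective hinj
  have h2 : #{x : ZFSet.{u} | x ∈ T} = lift.{u + 1, u} T.card := ZFSet.cardinalMk_coe_sort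
  rw [h2] at h1
  have h3 : lift.{u + 1, u} T.card ≤ lift.{u + 1, u} ℵ₁ := Cardinal.lift_le.2 hT
  have h4 : lift.{u + 1, 0} #{f : ℕ → ℕ | realSet.{u} f ∈ T} ≤ lift.{u + 1, 0} ℵ₁ := by
    calc lift.{u + 1, 0} #{f : ℕ → ℕ | realSet.{u} f ∈ T} ≤ lift.{0} (lift.{u + 1, u} T.card) := h1
      _ ≤ lift.{0} (lift.{u + 1, u} ℵ₁) := Cardinal.lift_le.2 h3
      _ = lift.{u + 1, 0} ℵ₁ := by simp
  exact Cardinal.lift_le.1 h4

theorem card_iUnion_nat_le {α : Type} (S : ℕ → Set α) (h : ∀ n, #(S n) ≤ ℵ₁) :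
    #(⋃ n, S n : Set α) ≤ ℵ₁ := by
  have h1 := Cardinal.mk_iUnion_le (fun n => S n)
  refine h1.trans ?_
  have h2 : (⨆ i, #(S i)) ≤ ℵ₁ := ciSup_le' h
  calc #ℕ * (⨆ i, #(S i)) ≤ ℵ₁ * ℵ₁ := by
        apply mul_le_mul' _ h2
        rw [Cardinal.mk_nat]
        exact Cardinal.aleph0_le_aleph 1
    _ = ℵ₁ := Cardinal.mul_eq_self (Cardinal.aleph0_le_aleph 1)

theorem card_union_le {α : Type} (S T : Set α) (hS : #S ≤ ℵ₁) (hT : #T ≤ ℵ₁) :
    #(S ∪ T : Set α) ≤ ℵ₁ := by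
  calc #(S ∪ T : Set α) ≤ #S + #T := Cardinal.mk_union_le S T
    _ ≤ ℵ₁ + ℵ₁ := add_le_add hS hT
    _ = ℵ₁ := Cardinal.add_eq_self (Cardinal.aleph0_le_aleph 1)

theorem Sigma1.support (B : Set (ℕ → ℕ)) (φ : Sigma1) : ∀ v : ℕ → H2.{u}, φ.Sat B v →
    ∃ S : Set (ℕ → ℕ), #S ≤ ℵ₁ ∧ ∀ B' : Set (ℕ → ℕ), (∀ f ∈ S, (f ∈ B ↔ f ∈ B')) →
      φ.Sat B' v := by
  induction φ with
  | base φ =>
    intro v hv
    choose t ht1 ht2 ht3 using fun i => (v i).2
    let T : ℕ → ZFSet.{u} := fun i => insert (v i).1 (t i)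
    have hT : ∀ i, (T i).card ≤ ℵ₁ := by
      intro i
      calc (T i).card ≤ (t i).card + 1 := ZFSet.card_insert_le
        _ ≤ ℵ₁ + ℵ₁ := add_le_add (ht3 i) (by
            exact (Cardinal.one_le_aleph0).trans (Cardinal.aleph0_le_aleph 1))
        _ = ℵ₁ := Cardinal.add_eq_self (Cardinal.aleph0_le_aleph 1)
    refine ⟨⋃ i, {f : ℕ → ℕ | realSet f ∈ T i},
      card_iUnion_nat_le _ (fun i => card_reals_in (T i) (hT i)), ?_⟩
    intro B' hB'
    refine (Delta0.sat_congr B B' {x | ∃ i, x ∈ T i} ?_ ?_ φ v ?_).1 hv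
    · rintro x ⟨i, hx⟩ y hy
      refine ⟨i, ?_⟩
      rw [ZFSet.mem_insert_iff] at hx ⊢
      right
      rcases hx with rfl | hx
      · exact ht2 i hy
      · exact ht1 i x hx hy
    · rintro f ⟨i, hf⟩
      apply hB'
      rw [Set.mem_iUnion]
      exact ⟨i, hf⟩
    · intro i
      exact ⟨i, ZFSet.mem_insert _ _⟩
  | ex i φ ih =>
    intro v hv
    obtain ⟨a, ha⟩ := hv
    obtain ⟨S, hS, h⟩ := ih _ ha
    exact ⟨S, hS, fun B' hB' => ⟨a, h B' hB'⟩⟩

/-! ### Deciding countably many facts -/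

theorem exists_decided {ι : Type} [Countable ι] [Nonempty ι]
    (P : ι → Set (ℕ → ℕ) → Prop)
    (hP : ∀ i B, P i B → ∃ S : Set (ℕ → ℕ), #S ≤ ℵ₁ ∧
      ∀ B' : Set (ℕ → ℕ), (∀ f ∈ S, (f ∈ B ↔ f ∈ B')) → P i B') :
    ∃ S b : Set (ℕ → ℕ), #S ≤ ℵ₁ ∧ b.Countable ∧ b ⊆ S ∧
      ∀ i, ∀ B' B'' : Set (ℕ → ℕ), B'.Countable → B''.Countable →
        B' ∩ S = b → B'' ∩ S = b → P i B' → P i B'' := by
  classical
  obtain ⟨e, he⟩ := exists_surjective_nat ι
  let St : Type := {p : Set (ℕ → ℕ) × Set (ℕ → ℕ) // #p.1 ≤ ℵ₁ ∧ p.2.Countable ∧ p.2 ⊆ p.1}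
  have step : ∀ (i : ι) (s : St), ∃ s' : St, s.1.1 ⊆ s'.1.1 ∧ s'.1.2 ∩ s.1.1 = s.1.2 ∧
      ((∀ B' : Set (ℕ → ℕ), B'.Countable → B' ∩ s'.1.1 = s'.1.2 → P i B') ∨
       (∀ B' : Set (ℕ → ℕ), B'.Countable → B' ∩ s.1.1 = s.1.2 → ¬ P i B')) := by
    intro i s
    by_cases h : ∃ B' : Set (ℕ → ℕ), B'.Countable ∧ B' ∩ s.1.1 = s.1.2 ∧ P i B'
    · obtain ⟨B, hBc, hBs, hPB⟩ := h
      obtain ⟨S, hS, hSB⟩ := hP i B hPB
      refine ⟨⟨((s.1.1 ∪ S) ∪ B, B), ?_, hBc, Set.subset_union_right⟩, ?_, hBs, Or.inl ?_⟩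
      · apply card_union_le _ _ (card_union_le _ _ s.2.1 hS)
        exact ((Cardinal.le_aleph0_iff_set_countable).2 hBc).trans (Cardinal.aleph0_le_aleph 1)
      · intro x hx
        exact Or.inl (Or.inl hx)
      · intro B' _ hB'
        apply hSB
        intro f hf
        have hf' : f ∈ (s.1.1 ∪ S) ∪ B := Or.inl (Or.inr hf)
        constructor
        · intro h
          have : f ∈ B' ∩ ((s.1.1 ∪ S) ∪ B) := by
            rw [hB']
            exact h
          exact this.1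
        · intro h
          have : f ∈ B' ∩ ((s.1.1 ∪ S) ∪ B) := ⟨h, hf'⟩
          rw [hB'] at this
          exact this
    · refine ⟨s, fun _ h => h, ?_, Or.inr ?_⟩
      · exact Set.inter_eq_left.2 s.2.2.2
      · intro B' h1 h2 h3
        exact h ⟨B', h1, h2, h3⟩
  choose nx hnx1 hnx2 hnx3 using step
  let s0 : St := ⟨(∅, ∅), by simp, Set.countable_empty, fun _ h => h⟩
  let s : ℕ → St := fun n => Nat.rec s0 (fun m st => nx (e m) st) n
  have hs : ∀ n, s (n + 1) = nx (e n) (s n) := fun n => rfl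
  have hmono : ∀ m n, m ≤ n → (s m).1.1 ⊆ (s n).1.1 := by
    intro m n hmn
    induction n, hmn using Nat.le_induction with
    | base => exact fun _ h => h
    | succ n _ ih =>
      intro x hx
      rw [hs]
      exact hnx1 _ _ (ih hx)
  have hcoh : ∀ m n, m ≤ n → (s n).1.2 ∩ (s m).1.1 = (s m).1.2 := by
    intro m n hmn
    induction n, hmn using Nat.le_induction with
    | base => exact Set.inter_eq_left.2 (s m).2.2.2
    | succ n hmn ih =>
      have h1 := hnx2 (e n) (s n)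
      rw [← hs] at h1
      have h2 := hmono m n hmn
      calc (s (n + 1)).1.2 ∩ (s m).1.1
          = ((s (n + 1)).1.2 ∩ (s n).1.1) ∩ (s m).1.1 := by
            rw [Set.inter_assoc, Set.inter_eq_right.2 h2]
        _ = (s n).1.2 ∩ (s m).1.1 := by rw [h1]
        _ = (s m).1.2 := ih
  have hsub : ∀ m n, m ≤ n → (s m).1.2 ⊆ (s n).1.2 := by
    intro m n hmn x hx
    rw [← hcoh m n hmn] at hx
    exact hx.1
  have hlim : ∀ B' : Set (ℕ → ℕ), B' ∩ (⋃ n, (s n).1.1) = ⋃ n, (s n).1.2 →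
      ∀ n, B' ∩ (s n).1.1 = (s n).1.2 := by
    intro B' hB' n
    apply Set.Subset.antisymm
    · rintro x ⟨hx1, hx2⟩
      have : x ∈ B' ∩ (⋃ n, (s n).1.1) := ⟨hx1, Set.mem_iUnion.2 ⟨n, hx2⟩⟩
      rw [hB', Set.mem_iUnion] at this
      obtain ⟨m, hm⟩ := this
      rcases le_total m n with h | h
      · exact hsub m n h hm
      · rw [← hcoh n m h]
        exact ⟨hm, hx2⟩
    · intro x hx
      have : x ∈ ⋃ n, (s n).1.2 := Set.mem_iUnion.2 ⟨n, hx⟩
      rw [← hB'] at this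
      exact ⟨this.1, (s n).2.2.2 hx⟩
  refine ⟨⋃ n, (s n).1.1, ⋃ n, (s n).1.2, card_iUnion_nat_le _ (fun n => (s n).2.1),
    Set.countable_iUnion (fun n => (s n).2.2.1), ?_, ?_⟩
  · exact Set.iUnion_mono (fun n => (s n).2.2.2)
  · intro i B' B'' hB'c hB''c hB' hB'' hPB'
    obtain ⟨n, rfl⟩ := he i
    rcases hnx3 (e n) (s n) with h | h
    · rw [← hs] at h
      exact h B'' hB''c (hlim B'' hB'' (n + 1))
    · exact absurd hPB' (h B' hB'c (hlim B' hB' n))

/-! ### The property that can be switched on and off -/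

/-- `B` has an element `y₁` with `y₁ 0 = n` and `y₁ 1 = 0` that eventually dominates every
element `y₂` of `B` with `y₂ 0 = n`. -/
def Top (B : Set (ℕ → ℕ)) (n : ℕ) : Prop :=
  ∃ y₁ : ℕ → ℕ, y₁ ∈ B ∧ y₁ 0 = n ∧ y₁ 1 = 0 ∧
    ∀ y₂ : ℕ → ℕ, y₂ ∈ B → y₂ 0 = n → ∃ m, ∀ k, m ≤ k → y₂ k ≤ y₁ k

/-- The arithmetical formula `s ≤ t` (with `n_j` not occurring in `s` and `t`). -/
def leF (j : ℕ) (s t : NumTerm) : ArithFormula :=
  .not (.all j (.not (.eq (.add s (.var j)) t)))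

/-- The arithmetical formula expressing the matrix of `Top B (x 0)`. -/
def topF : ArithFormula :=
  .and (.and (.inB 1) (.and (.eq (.app 1 .zero) (.app 0 .zero))
      (.eq (.app 1 (.succ .zero)) .zero)))
    (.not (.and (.and (.inB 2) (.eq (.app 2 .zero) (.app 0 .zero)))
      (.all 0 (.not (.all 1 (.not (.and (leF 2 (.var 0) (.var 1))
        (.not (leF 2 (.app 2 (.var 1)) (.app 1 (.var 1)))))))))))

theorem topF_sat (B : Set (ℕ → ℕ)) (x y₁ y₂ y₃ : ℕ → ℕ) :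
    topF.Sat B (reals x y₁ y₂ y₃) (fun _ => 0) ↔
      (y₁ ∈ B ∧ y₁ 0 = x 0 ∧ y₁ 1 = 0) ∧
        (y₂ ∈ B → y₂ 0 = x 0 → ∃ m, ∀ k, m ≤ k → y₂ k ≤ y₁ k) := by
  have hle : ∀ a b : ℕ, (∃ j, a + j = b) ↔ a ≤ b := by
    intro a b
    constructor
    · rintro ⟨j, rfl⟩; exact Nat.le_add_right a j
    · intro h; exact ⟨b - a, by omega⟩
  simp only [topF, leF, ArithFormula.Sat, NumTerm.val, reals, Function.update_self, ne_eq,
    not_false_eq_true, Function.update_of_ne, zero_add, zero_ne_one, OfNat.one_ne_ofNat,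
    not_forall, not_not, not_and, not_exists, OfNat.zero_ne_ofNat, hle]
  constructor
  · rintro ⟨h1, h2⟩
    refine ⟨h1, fun h3 h4 => ?_⟩
    obtain ⟨m, hm⟩ := h2 ⟨h3, h4⟩
    exact ⟨m, hm⟩
  · rintro ⟨h1, h2⟩
    refine ⟨h1, ?_⟩
    rintro ⟨h3, h4⟩
    exact h2 h3 h4

theorem top_isSigma13 (B : Set (ℕ → ℕ)) : IsSigma13 B {x | Top B (x 0)} := by
  refine ⟨topF, ?_⟩
  ext x
  simp only [Set.mem_ofPred_eq, topF_sat]
  constructor
  · rintro ⟨y₁, h1, h2, h3, h4⟩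
    exact ⟨y₁, fun y₂ => ⟨fun _ => 0, ⟨h1, h2, h3⟩, fun h5 h6 => h4 y₂ h5 h6⟩⟩
  · rintro ⟨y₁, h⟩
    obtain ⟨_, ⟨h1, h2, h3⟩, _⟩ := h (fun _ => 0)
    refine ⟨y₁, h1, h2, h3, ?_⟩
    intro y₂ h5 h6
    obtain ⟨_, _, h7⟩ := h y₂
    exact h7 h5 h6

/-- A real outside a small set which strictly dominates countably many reals. -/
theorem exists_dominating (hc : (ℵ₁ : Cardinal.{0}) < 𝔠) (S b : Set (ℕ → ℕ)) (hS : #S ≤ ℵ₁) (hb : b.Countable)
    (n e : ℕ) : ∃ x : ℕ → ℕ, x ∉ S ∧ x 0 = n ∧ x 1 = e ∧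
      ∀ y ∈ b, ∃ m, ∀ k, m ≤ k → y k < x k := by
  classical
  obtain ⟨d, hd⟩ : ∃ d : ℕ → (ℕ → ℕ), b ⊆ Set.range d := by
    rcases b.eq_empty_or_nonempty with h | h
    · exact ⟨fun _ _ => 0, by simp [h]⟩
    · obtain ⟨d, hd⟩ := hb.exists_eq_range h
      exact ⟨d, hd.le⟩
  let X : Set ℕ → (ℕ → ℕ) := fun g k =>
    if k = 0 then n else if k = 1 then e
    else (∑ i ∈ Finset.range (k + 1), d i k) + 1 + (if k - 2 ∈ g then 1 else 0)
  have hX : Function.Injective X := by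
    intro g g' h
    ext k
    have := congrFun h (k + 2)
    simp only [X, Nat.add_eq_zero_iff, OfNat.ofNat_ne_zero, and_false, if_false,
      Nat.add_sub_cancel] at this
    have h1 : ¬ (k + 2 = 1) := by omega
    simp only [h1, if_false, Nat.add_left_cancel_iff] at this
    by_cases h2 : k ∈ g <;> by_cases h3 : k ∈ g' <;> simp [h2, h3] at this ⊢
  have hex : ∃ g, X g ∉ S := by
    by_contra hcon
    push Not at hcon
    have hle : #(Set ℕ) ≤ #S := by
      apply Cardinal.mk_le_of_injective (f := fun g => (⟨X g, hcon g⟩ : S))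
      intro g g' h
      exact hX (congrArg Subtype.val h)
    have hpow : #(Set ℕ) = 𝔠 := by simp
    rw [hpow] at hle
    exact absurd (hle.trans hS) (not_le.2 hc)
  obtain ⟨g, hg⟩ := hex
  refine ⟨X g, hg, by simp [X], by simp [X], ?_⟩
  intro y hy
  obtain ⟨i, rfl⟩ := hd hy
  refine ⟨i + 2, ?_⟩
  intro k hk
  have h1 : d i k ≤ ∑ i ∈ Finset.range (k + 1), d i k :=
    Finset.single_le_sum (f := fun i => d i k) (fun _ _ => Nat.zero_le _)
      (Finset.mem_range.2 (by omega))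
  have h2 : ¬ k = 0 := by omega
  have h3 : ¬ k = 1 := by omega
  simp only [X, h2, h3, if_false]
  omega

/-- The property `Top B n` can be prescribed by adding to `b` countably many reals outside
`S`. -/
theorem exists_toggle (hc : (ℵ₁ : Cardinal.{0}) < 𝔠) (S b : Set (ℕ → ℕ)) (hS : #S ≤ ℵ₁) (hb : b.Countable)
    (hbS : b ⊆ S) (Z : Set ℕ) : ∃ B : Set (ℕ → ℕ), B.Countable ∧ B ∩ S = b ∧
      ∀ n, Top B n ↔ n ∈ Z := by
  classical
  choose x hx1 hx2 hx3 hx4 using fun n : ℕ =>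
    exists_dominating hc S b hS hb n (if n ∈ Z then 0 else 1)
  refine ⟨b ∪ Set.range x, hb.union (Set.countable_range x), ?_, ?_⟩
  · apply Set.Subset.antisymm
    · rintro y ⟨hy | ⟨n, rfl⟩, hyS⟩
      · exact hy
      · exact absurd hyS (hx1 n)
    · intro y hy
      exact ⟨Or.inl hy, hbS hy⟩
  · intro n
    constructor
    · rintro ⟨y₁, h1, h2, h3, h4⟩
      by_contra hn
      obtain ⟨m, hm⟩ := h4 (x n) (Or.inr ⟨n, rfl⟩) (hx2 n)
      rcases h1 with h1 | ⟨k, rfl⟩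
      · obtain ⟨m', hm'⟩ := hx4 n y₁ h1
        have e1 := hm (max m m') (le_max_left _ _)
        have e2 := hm' (max m m') (le_max_right _ _)
        omega
      · rw [hx2] at h2
        subst h2
        rw [hx3] at h3
        simp [hn] at h3
    · intro hn
      refine ⟨x n, Or.inr ⟨n, rfl⟩, hx2 n, by rw [hx3]; simp [hn], ?_⟩
      rintro y₂ (h1 | ⟨k, rfl⟩) h2
      · obtain ⟨m, hm⟩ := hx4 n y₂ h1
        exact ⟨m, fun k hk => (hm k hk).le⟩
      · rw [hx2] at h2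
        subst h2
        exact ⟨0, fun _ _ => le_rfl⟩

/-- Countable sets are universally Baire. -/
theorem universallyBaire_of_countable (B : Set (ℕ → ℕ)) (hB : B.Countable) :
    UniversallyBaire.{u} B := by
  intro X _ _ _ f hf
  have h1 : BaireMeasurableSet (f ⁻¹' B) := by
    have : f ⁻¹' B = ⋃ y ∈ B, f ⁻¹' {y} := by
      ext x
      simp
    rw [this]
    apply BaireMeasurableSet.biUnion hB
    intro y _
    apply BaireMeasurableSet.of_compl
    apply IsOpen.baireMeasurableSet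
    exact (isClosed_singleton.preimage hf).isOpen_compl
  obtain ⟨U, hU, hUe⟩ := h1.residualEq_isOpen
  refine ⟨U, hU, ?_⟩
  have : {x | (x ∈ f ⁻¹' B) ↔ (x ∈ U)} ∈ residual X := by
    have := Filter.eventuallyEq_set.1 hUe
    exact this
  unfold IsMeagre
  refine Filter.mem_of_superset this ?_
  intro x hx hcon
  rw [Set.mem_symmDiff] at hcon
  have hx' : (x ∈ f ⁻¹' B) ↔ (x ∈ U) := hx
  rcases hcon with ⟨h1, h2⟩ | ⟨h1, h2⟩
  · exact h2 (hx'.1 h1)
  · exact h2 (hx'.2 h1)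

/-- **Theorem.** If every `Σ¹₃(B)` set of reals is `Σ₁(ω₁)`-definable over
`⟨H(ω₂), ∈, B, NS_{ω₁}⟩` for every universally Baire `B ⊆ ω^ω` (it is enough to assume it for
countable `B`), then the continuum hypothesis holds. -/
theorem result
    (h : ∀ B : Set (ℕ → ℕ), UniversallyBaire.{u} B → B.Countable →
      ∀ A : Set (ℕ → ℕ), IsSigma13 B A → IsSigma1Omega1.{u} B A) :
    (𝔠 : Cardinal.{0}) = ℵ₁ := by
  by_contra hne
  have hc : (ℵ₁ : Cardinal.{0}) < 𝔠 := lt_of_le_of_ne Cardinal.aleph_one_le_continuum (Ne.symm hne)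
  -- the countably many `Σ₁(ω₁)` facts about constant reals
  let P : Sigma1 × ℕ → Set (ℕ → ℕ) → Prop := fun p B =>
    p.1.Sat B (fun i => if i = 0 then realH.{u} (fun _ => p.2) else omega1)
  have hP : ∀ i B, P i B → ∃ S : Set (ℕ → ℕ), #S ≤ ℵ₁ ∧
      ∀ B' : Set (ℕ → ℕ), (∀ f ∈ S, (f ∈ B ↔ f ∈ B')) → P i B' :=
    fun i B hi => Sigma1.support B i.1 _ hi
  have : Nonempty Sigma1 := ⟨.base (.eq 0 0)⟩
  obtain ⟨S, b, hS, hb, hbS, hdec⟩ := exists_decided P hP
  -- the subsets of `ω` that are definable once `B ∩ S = b`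
  let Th : Sigma1 → Set ℕ := fun φ =>
    {n | ∃ B : Set (ℕ → ℕ), B.Countable ∧ B ∩ S = b ∧ P (φ, n) B}
  obtain ⟨Z, hZ⟩ : ∃ Z : Set ℕ, ∀ φ, Th φ ≠ Z := by
    by_contra hcon
    push Not at hcon
    have hsurj : Function.Surjective Th := hcon
    have : Countable (Set ℕ) := hsurj.countable
    obtain ⟨g, hg⟩ := exists_surjective_nat (Set ℕ)
    exact Function.cantor_surjective g hg
  obtain ⟨B, hBc, hBS, hB⟩ := exists_toggle hc S b hS hb hbS Z
  obtain ⟨φ, hφ⟩ := h B (universallyBaire_of_countable B hBc) hBc _ (top_isSigma13 B)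
  apply hZ φ
  ext n
  have h1 := hφ (realH.{u} (fun _ => n))
  have h2 : (∃ f ∈ {x : ℕ → ℕ | Top B (x 0)}, (realH.{u} (fun _ => n)).1 = realSet f) ↔
      Top B n := by
    constructor
    · rintro ⟨f, hf, he⟩
      have : (fun _ => n) = f := realSet_injective.{u} he
      rw [← this] at hf
      exact hf
    · intro ht
      exact ⟨fun _ => n, ht, rfl⟩
  rw [h2, hB n] at h1
  rw [← h1]
  constructor
  · rintro ⟨B', hB'c, hB'S, hPB'⟩
    exact hdec (φ, n) B' B hB'c hBc hB'S hBS hPB'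
  · intro hPB
    exact ⟨B, hBc, hBS, hPB⟩

end Pool.Agent.Results.MP_ebf58a_lc.ClaimImpliesCH
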