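import Pool.Agent.Lib.H94W.Main

set_option autoImplicit false

/-!
# `Σ¹₃(B)` sets and `Σ₁(ω₁)`-definability over `⟨H(ω₂), ∈, B, NS_{ω₁}⟩`: a disproof

All definitions used in the statement are in `Pool/Agent/Lib/H94W/Stmt.lean`.

Idea of the proof.  A true `Σ₁(ω₁)` fact about `M_B`, `B` countable, depends only on `B ∩ S` for a
countable set `S` of reals, among the countable sets `B` (`H94W.lemmaW`).  Then one can switch
on and off a suitable `Σ¹₃(B)` property by adding countably many reals outside `S`, and the
countably many `Σ₁` formulas cannot follow.  For the lemma take a Woodin cardinal `δ` and a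
larger one, and a countable set `X` closed under countably many class functions, stretched
by a measure above `δ` to a set of size `ℵ₁`, and iterate it `ω₁` times by generic ultrapowers of
the countable stationary tower on `δ`, avoiding countably many given reals, in such a way that
the last model is correct about stationary subsets of `ω₁`.
-/

namespace Pool.Agent.Results.MP_ebf58a_lc.FalseUnderWoodins

open H94W

universe u

/-- **Theorem.** Assume that there is a proper class of Woodin cardinals.  Then there are a
countable (hence universally Baire) set `B ⊆ ω^ω` and a `Σ¹₃(B)` set of reals which is not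
`Σ₁(ω₁)`-definable over `M_B = ⟨H(ω₂), ∈, B, NS_{ω₁}⟩`. -/
theorem result (hW : ∀ α : Ordinal.{u}, ∃ δ > α, IsWoodin δ) :
    ∃ B : Set (ℕ → ℕ), B.Countable ∧ UniversallyBaire.{u} B ∧
      ∃ A : Set (ℕ → ℕ), IsSigma13 B A ∧ ¬ IsSigma1Omega1.{u} B A :=
  H94W.main hW

end Pool.Agent.Results.MP_ebf58a_lc.FalseUnderWoodins
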